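import Mathlib
import Pool.Agent.R473.PP.Fail
import Pool.Agent.TH842.A3.Final

/-!
# Prediction and compression of the integer linear images of the digit matrices

Let `1, α_1, …, α_n` be real algebraic numbers, linearly independent over `ℚ`, with the base `b`
digits `a_(i,k)`, and let `y_k = ∑_i ∑_(j ≤ m) q_(i,j) a_(i,k+j)` be any nontrivial image of the
sequence of the digit matrices, for instance the sum without carry `a_(1,k) + a_(2,k)`.  A
deterministic pushdown automaton which reads `y_1, y_2, …` and guesses every term before it reads it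
is wrong often, and a lossless automaton with finitely many states which reads it writes often.
-/

set_option autoImplicit false

namespace Pool.Agent.Results.MP_c8ecb2_nt.FactorsPredictionCompression

open Finset Filter Pool.Agent.W979.HS Pool.Agent.R473.PP

/-- the `k`-th digit after the point of `x` in base `b` -/
noncomputable def digit (b : ℕ) (x : ℝ) (k : ℕ) : ℤ := ⌊(b : ℝ) ^ k * x⌋ % b

/-- `y_k`, for `k ≥ 1` -/
noncomputable def factor {n : ℕ} (b : ℕ) (α : Fin n → ℝ) (m : ℕ) (q : Fin n → ℕ → ℤ) (k : ℕ) : ℤ :=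
  ∑ i, ∑ j ∈ range (m + 1), q i j * digit b (α i) (k + j)

/-- the failures of `y_k = y_(k + P)` -/
theorem factor_fails {n : ℕ} (b : ℕ) (hb : 2 ≤ b) (α : Fin n → ℝ) (halg : ∀ i, IsAlgebraic ℚ (α i))
    (hind : ∀ z : Fin n → ℤ, z ≠ 0 → Irrational (∑ i, (z i : ℝ) * α i))
    (m : ℕ) (q : Fin n → ℕ → ℤ) (hq : ∃ i, ∃ j, j ≤ m ∧ q i j ≠ 0) (P : ℕ) (hP : 1 ≤ P) :
    ∃ c : ℝ, 0 < c ∧ ∃ N0 : ℕ, ∀ N : ℕ, N0 ≤ N →
      c * ((Real.log N) ^ 3 / (Real.log (Real.log N)) ^ 5) ≤
        (((Icc 1 N).filter (fun k : ℕ => factor b α m q k ≠ factor b α m q (k + P))).card : ℝ) := by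
  set q' : Fin n → ℕ → ℤ := fun i j =>
    (if j ≤ m then q i j else 0) - (if P ≤ j then q i (j - P) else 0) with hq'
  have hsum : ∀ k, ∑ i, ∑ j ∈ range (m + P + 1), q' i j * digit b (α i) (k + j) =
      factor b α m q k - factor b α m q (k + P) := by
    intro k
    unfold factor
    rw [← Finset.sum_sub_distrib]
    apply Finset.sum_congr rfl
    intro i _
    have h1 : ∑ j ∈ range (m + P + 1), (if j ≤ m then q i j else 0) * digit b (α i) (k + j) =
        ∑ j ∈ range (m + 1), q i j * digit b (α i) (k + j) := by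
      rw [← Finset.sum_subset (s₁ := range (m + 1)) (Finset.range_subset_range.2 (by omega))]
      · apply Finset.sum_congr rfl
        intro j hj
        rw [Finset.mem_range] at hj
        rw [if_pos (by omega)]
      · intro j _ hj
        rw [Finset.mem_range] at hj
        rw [if_neg (by omega), zero_mul]
    have h2 : ∑ j ∈ range (m + P + 1), (if P ≤ j then q i (j - P) else 0) * digit b (α i) (k + j) =
        ∑ j ∈ range (m + 1), q i j * digit b (α i) (k + P + j) := by
      rw [show m + P + 1 = P + (m + 1) by ring, Finset.sum_range_add]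
      rw [Finset.sum_eq_zero, zero_add]
      · apply Finset.sum_congr rfl
        intro j _
        rw [if_pos (by omega), show P + j - P = j by omega, ← add_assoc]
      · intro j hj
        rw [Finset.mem_range] at hj
        rw [if_neg (by omega), zero_mul]
    rw [← h1, ← h2, ← Finset.sum_sub_distrib]
    apply Finset.sum_congr rfl
    intro j _
    rw [hq']
    ring
  -- the new relation is not trivial
  have hne : ∃ i, ∃ j, j ≤ m + P ∧ q' i j ≠ 0 := by
    obtain ⟨i, j0, hj0, hqj0⟩ := hq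
    have hex : ∃ j, j ≤ m ∧ q i j ≠ 0 := ⟨j0, hj0, hqj0⟩
    classical
    have h1 := Nat.find_spec hex
    refine ⟨i, Nat.find hex, by omega, ?_⟩
    rw [hq']
    have h2 : (if P ≤ Nat.find hex then q i (Nat.find hex - P) else 0) = 0 := by
      split_ifs with h
      · by_contra h3
        exact Nat.find_min hex (m := Nat.find hex - P) (by omega) ⟨by omega, h3⟩
      · rfl
    show (if Nat.find hex ≤ m then q i (Nat.find hex) else 0) -
      (if P ≤ Nat.find hex then q i (Nat.find hex - P) else 0) ≠ 0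
    rw [h2, sub_zero, if_pos h1.1]
    exact h1.2
  obtain ⟨c, hc, N0, h⟩ := Pool.Agent.TH842.A3.Out5.relations5 Pool.Agent.TH842.A3.mg5
    α halg hind b hb (m + P) q' hne 0
  refine ⟨c, hc, N0, fun N hN => ?_⟩
  rw [← mul_div_assoc]
  refine (h N hN).trans (le_of_eq ?_)
  congr 2
  apply Finset.filter_congr
  intro k _
  show ∑ i, ∑ j ∈ range (m + P + 1), q' i j * digit b (α i) (k + j) ≠ 0 ↔ _
  rw [hsum k, sub_ne_zero]

/-- Let `α_1, …, α_n` be real algebraic numbers such that `1, α_1, …, α_n` are linearly independent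
over `ℚ`, `b ≥ 2`, and let `q_(i,j)` (`j ≤ m`) be integers, not all zero.  Let `d` be the sequence
`y_1, y_2, …`, `y_k = ∑_i ∑_(j ≤ m) q_(i,j) a_(i,k+j)`, with the values renamed by elements of a
finite alphabet (`d k = d l` if and only if `y_(k+1) = y_(l+1)`).
(1) A pushdown predictor which reads `d` is wrong at least `c (log N) ^ 3 / (log log N) ^ 5` times
before it has read `N` terms, for large `N`, where `c > 0` and the bound for `N` do not depend on its
initial state.
(2) For all `K` there are `c > 0` and `N₀` such that every lossless automaton with `K` states which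
reads `d` writes something in at least `c (log N) ^ 3 / (log log N) ^ 5` of the first `N` steps,
`N ≥ N₀`. -/
theorem result {n : ℕ} (b : ℕ) (hb : 2 ≤ b) (α : Fin n → ℝ) (halg : ∀ i, IsAlgebraic ℚ (α i))
    (hind : ∀ z : Fin n → ℤ, z ≠ 0 → Irrational (∑ i, (z i : ℝ) * α i))
    (m : ℕ) (q : Fin n → ℕ → ℤ) (hq : ∃ i, ∃ j, j ≤ m ∧ q i j ≠ 0)
    (s : ℕ) (d : ℕ → Fin s)
    (hd : ∀ k l, d k = d l ↔ factor b α m q (k + 1) = factor b α m q (l + 1)) :
    (∀ (Q Γ : Type) [Fintype Q] [Fintype Γ] (M : Predictor s Q Γ),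
      ∃ c : ℝ, 0 < c ∧ ∃ N₀ : ℕ, ∀ (q₀ : Q) (N T : ℕ), N₀ ≤ N → N ≤ (M.conf q₀ d T).1 →
        c * ((Real.log N) ^ 3 / (Real.log (Real.log N)) ^ 5) ≤ M.wrong q₀ d T) ∧
    (∀ K : ℕ, ∃ c : ℝ, 0 < c ∧ ∃ N₀ : ℕ, ∀ (β : Type) [DecidableEq β]
      (δ : Fin K → Fin s → Fin K) (o : Fin K → Fin s → List β) (q₀ : Fin K), Lossless δ o q₀ →
      ∀ N : ℕ, N₀ ≤ N →
        c * ((Real.log N) ^ 3 / (Real.log (Real.log N)) ^ 5) ≤ writes δ o q₀ d N) := by
  have hf : Tendsto (fun N : ℕ => (Real.log N) ^ 3 / (Real.log (Real.log N)) ^ 5) atTop atTop :=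
    tend 3 5 (by norm_num)
  -- failures of `d k = d (k + P)`
  have hcount : ∀ P N : ℕ, ((Icc 1 N).filter
      (fun k : ℕ => factor b α m q k ≠ factor b α m q (k + P))).card ≤ fails d P N + P := by
    intro P N
    have hsub : (Icc 1 N).filter (fun k : ℕ => factor b α m q k ≠ factor b α m q (k + P)) ⊆
        (((range N).filter fun k => k + P < N ∧ d k ≠ d (k + P)).image fun i => i + 1) ∪
          Ioc (N - P) N := by
      intro k hk
      rw [mem_filter, mem_Icc] at hk
      obtain ⟨⟨hk1, hk2⟩, hk3⟩ := hk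
      rw [mem_union, mem_Ioc, mem_image]
      rcases lt_or_ge (N - P) k with h | h
      · exact Or.inr ⟨h, hk2⟩
      · left
        refine ⟨k - 1, ?_, by omega⟩
        rw [mem_filter, mem_range]
        refine ⟨by omega, by omega, ?_⟩
        intro heq
        apply hk3
        have h1 := (hd _ _).1 heq
        rw [show k - 1 + 1 = k by omega, show k - 1 + P + 1 = k + P by omega] at h1
        exact h1
    refine (card_le_card hsub).trans ((card_union_le _ _).trans ?_)
    refine Nat.add_le_add card_image_le ?_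
    rw [Nat.card_Ioc]
    omega
  refine ⟨fun Q Γ _ _ M => ?_, fun K => ?_⟩
  · obtain ⟨P, C, hP, hpred⟩ := predictor_fail M
    obtain ⟨c, hc, N0, h⟩ := factor_fails b hb α halg hind m q hq P hP
    obtain ⟨c', hc', N1, hN1, habs⟩ := absorb _ hf c ((C : ℝ) + P + 1) hc (by positivity) N0
    refine ⟨c', hc', N1, fun q₀ N T hN hT => ?_⟩
    refine habs N hN _ ((h N (hN1.trans hN)).trans ?_)
    refine (Nat.cast_le.2 (hcount P N)).trans ?_
    have h1 : ((fails d P N : ℕ) : ℝ) ≤ C * ((M.wrong q₀ d T : ℕ) + 1) := by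
      exact_mod_cast hpred q₀ d N T hT
    have h2 : (0 : ℝ) ≤ (M.wrong q₀ d T : ℕ) := Nat.cast_nonneg _
    have h3 : (0 : ℝ) ≤ P := Nat.cast_nonneg _
    push_cast
    nlinarith [mul_nonneg h2 h3]
  · have hP : 1 ≤ K.factorial := Nat.one_le_iff_ne_zero.2 (Nat.factorial_ne_zero _)
    obtain ⟨c, hc, N0, h⟩ := factor_fails b hb α halg hind m q hq K.factorial hP
    obtain ⟨c', hc', N1, hN1, habs⟩ := absorb _ hf c
      (((K.factorial + 1) * (K + 1) : ℝ) + K.factorial + 1) hc (by positivity) N0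
    refine ⟨c', hc', N1, fun β _ δ o q₀ hl N hN => ?_⟩
    refine habs N hN _ ((h N (hN1.trans hN)).trans ?_)
    refine (Nat.cast_le.2 (hcount K.factorial N)).trans ?_
    have h1 : ((fails d K.factorial N : ℕ) : ℝ) ≤
        ((K.factorial + 1) * (K + 1) : ℝ) * ((writes δ o q₀ d N : ℕ) + 1) := by
      exact_mod_cast comp_fail δ o q₀ hl d N
    have h2 : (0 : ℝ) ≤ (writes δ o q₀ d N : ℕ) := Nat.cast_nonneg _
    have h3 : (0 : ℝ) ≤ (K.factorial : ℝ) := Nat.cast_nonneg _
    push_cast
    nlinarith [mul_nonneg h2 h3]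

end Pool.Agent.Results.MP_c8ecb2_nt.FactorsPredictionCompression
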