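import Pool.Agent.R485.TransS.Joint

/-!
# Nearly all rational translates of a tuple of algebraic numbers are nearly normal as tuples

Let `S` be a finite set of primes which do not divide the base `b`. There are stages `N_1 < N_2 < …`
such that for all tuples `(x_1, …, x_d)` of real algebraic numbers and all `ε > 0` the tuple
`(x_1 + r_1, …, x_d + r_d)` is normal to base `b` up to `ε` at all large stages `N_j`, for all rationals
`r_l` with denominators composed of primes of `S` which do not lie in one of `K(d, ε)` exceptional
hyperplanes `h_1 r_1 + ⋯ + h_d r_d = c` modulo one. In particular there are tuples of real algebraic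
numbers, with `1, α_1, …, α_d` linearly independent over `ℚ` and as near as one likes to any given
point, which are normal up to `ε` at infinitely many stages; no such tuple is known to be normal.

Proof. By the criterion of Weyl one has to bound the sums `∑_{i ≤ n} exp(2πi b^i (h · x + h · r))`,
`h ≠ 0`. For any real number `y` the variance of `∑_{u < i ≤ v} exp(2πi b^i (y + a / m))` over `a` modulo
`m` is at most the number of the pairs `i, j` with `m ∣ b^i - b^j`. So all but boundedly many
classes `c` of rationals modulo one with denominators composed of primes of `S` give small sums for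
`y + c`, at every large stage, and a diagonal argument makes the exceptional classes independent of
the stage.
-/

set_option autoImplicit false

open Filter

namespace Pool.Agent.Results.MP_c8ecb2_nt.JointTranslates

/-- the tuple `z` is normal in base `b` up to the `N`-th digit, with an error of at most `E`: for all
`n ≤ N` and all boxes `∏ [u l, v l)` in the unit cube the number of the `1 ≤ i ≤ n` for which the
fractional part of `z l * b ^ i` lies in `[u l, v l)` for all `l` differs from `n` times the volume of
the box by at most `E` -/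
def JointUpTo {d : ℕ} (b N : ℕ) (E : ℝ) (z : Fin d → ℝ) : Prop :=
  ∀ n : ℕ, n ≤ N → ∀ u v : Fin d → ℝ, (∀ l, 0 ≤ u l ∧ u l < v l ∧ v l ≤ 1) →
    |(((Finset.Icc 1 n).filter (fun i : ℕ => ∀ l, u l ≤ Int.fract (z l * (b : ℝ) ^ i) ∧
      Int.fract (z l * (b : ℝ) ^ i) < v l)).card : ℝ) - n * ∏ l, (v l - u l)| ≤ E

/-- Let `S` be a finite set of primes and `𝓑` a finite set of bases `b ≥ 2` which are not divisible by
the primes of `S` (`Nat.factoredNumbers S` is the set of the `m ≥ 1` with all prime factors in `S`).
There are numbers `K d ε` such that for every countable set `X` of real numbers (for instance the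
set of all real algebraic numbers) and every infinite set `𝒩` of natural numbers there are
`φ 0 < φ 1 < …` in `𝒩` with the following property. For all `d`, all `x l ∈ X` and all `ε > 0` there
are at most `K d ε` pairs `(h, c)`, where `h` is a nonzero vector of `d` integers and `c` is a rational
number, such that for all vectors `r` of `d` rational numbers with denominators composed of primes of
`S`, for which the fractional part of `∑ l, h l * r l` is `c` for none of these pairs, the deviation of
`(x l + r l)_l` up to the `φ j`-th digit is at most `ε φ j` in all bases `b ∈ 𝓑`, for all large `j`. -/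
theorem result (S 𝓑 : Finset ℕ) (hS : ∀ q ∈ S, q.Prime)
    (h𝓑 : ∀ b ∈ 𝓑, 2 ≤ b ∧ ∀ q ∈ S, ¬ q ∣ b) :
    ∃ K : ℕ → ℝ → ℝ, ∀ X : Set ℝ, X.Countable → ∀ 𝒩 : Set ℕ, 𝒩.Infinite →
      ∃ φ : ℕ → ℕ, StrictMono φ ∧ (∀ j, φ j ∈ 𝒩) ∧ ∀ (d : ℕ) (x : Fin d → ℝ), (∀ l, x l ∈ X) →
        ∀ ε : ℝ, 0 < ε → ∃ E : Finset ((Fin d → ℤ) × ℚ), (E.card : ℝ) ≤ K d ε ∧
          (∀ p ∈ E, p.1 ≠ 0) ∧ ∀ r : Fin d → ℚ, (∀ l, (r l).den ∈ Nat.factoredNumbers S) →
            (∀ p ∈ E, Int.fract (∑ l, (p.1 l : ℚ) * r l) ≠ p.2) →
              ∀ᶠ j in atTop, ∀ b ∈ 𝓑, JointUpTo b (φ j) (ε * φ j) (fun l => x l + r l) :=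
  Pool.Agent.R485.TransS.joint S 𝓑 hS h𝓑

end Pool.Agent.Results.MP_c8ecb2_nt.JointTranslates
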