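import Pool.Agent.R501.MT5

/-!
# Joint digits of the multiples of an independent tuple of algebraic numbers by palindromes and by integers with
# missing digits

Let `α_1, …, α_r` be real algebraic numbers such that `1, α_1, …, α_r` are linearly independent over `ℚ`. Let `m` be
a random palindrome with `k` digits in base `g`, or a random integer with `k` digits in base `g` whose `i`-th digit
belongs to a given set `D i` of at least two digits. For almost all of these integers the digit matrices of
`(m α_1 + y_1, …, m α_r + y_r)` in arbitrary bases stand with the right frequencies in all the windows inside the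
first `A k` digits, for every `A`.

From the starting files: the Diophantine input `Pool.Agent.Y951.TU.Dioph` (which rests on the subspace theorem), the
comparison of measures on the cube `Pool.Agent.Y951.TU.Test` and the moments of word counts `Pool.Agent.Y933`. The
characteristic functions of the families are in `Pool.Agent.TH872`, `Pool.Agent.R459.Eq6` and `Pool.Agent.R318.ST.Dig`.
New is the combination: `Pool.Agent.R501.MT1` to `MT5`.
-/

set_option autoImplicit false

namespace Pool.Agent.Results.MP_c8ecb2_nt.PalindromesAndMissingDigits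

open Finset

/-- the word of the `l` digits in base `b` of `x` which follow the first `n` digits after the point, read as an integer
between `0` and `b ^ l - 1` -/
noncomputable def word (b l n : ℕ) (x : ℝ) : ℕ := ⌊(b : ℝ) ^ l * Int.fract ((b : ℝ) ^ n * x)⌋₊

/-- the number of the `i < N` such that for every `j` the word of `l` digits in base `b j` of `x j` which follows the
first `s j + u + i` digits is `D j` -/
noncomputable def occ {r : ℕ} (b : Fin r → ℕ) (l : ℕ) (D s : Fin r → ℕ) (u N : ℕ) (x : Fin r → ℝ) : ℕ :=
  ((range N).filter (fun i => ∀ j, word (b j) l (s j + u + i) (x j) = D j)).card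

/-- every tuple of words of at most `w` digits stands with the right frequency, up to an error of `T` places, in all the
windows of places `s j + u, …, s j + u + N - 1` with `u + N ≤ L` -/
def NearNormal {r : ℕ} (b : Fin r → ℕ) (w : ℕ) (T L : ℝ) (s : Fin r → ℕ) (x : Fin r → ℝ) : Prop :=
  ∀ (l : ℕ) (D : Fin r → ℕ) (u N : ℕ), 1 ≤ l → l ≤ w → (∀ j, D j < b j ^ l) → (u : ℝ) + N ≤ L →
    |(occ b l D s u N x : ℝ) - N / ∏ j, (b j : ℝ) ^ l| ≤ T

/-- the palindromes with exactly `k` digits in base `g` -/
def IsPalindrome (g k m : ℕ) : Prop :=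
  g ^ (k - 1) ≤ m ∧ m < g ^ k ∧ ∀ j < k, m / g ^ j % g = m / g ^ (k - 1 - j) % g

open Classical in
/-- the set of the palindromes with exactly `k` digits in base `g` -/
noncomputable def palindromes (g k : ℕ) : Finset ℕ := (range (g ^ k)).filter (IsPalindrome g k)

lemma near_of_good {r : ℕ} {b : Fin r → ℕ} {w : ℕ} {T L : ℝ} {s : Fin r → ℕ} {x : Fin r → ℝ}
    (h : Pool.Agent.R501.MT.GoodV b w T L s x) : NearNormal b w T L s x := by
  intro l D u N hl hlw hD huN
  have h1 := h l D u N hl hlw hD huN
  have h2 : (∏ j, (b j : ℝ) ^ l) = ((∏ j, b j : ℕ) : ℝ) ^ l := by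
    rw [Finset.prod_pow]
    push_cast
    rfl
  have h3 : occ b l D s u N x =
      ((range N).filter (fun i => Pool.Agent.Y951.TU.tw b l (fun j => s j + (u + i)) x = D)).card := by
    unfold occ
    congr 1
    apply filter_congr
    intro i _
    rw [funext_iff]
    simp only [add_assoc]
    rfl
  rw [h2, h3]
  exact h1

lemma filt_card {S : Finset ℕ} {P Q : ℕ → Prop} (i₁ : DecidablePred P) (i₂ : DecidablePred Q) (h : ∀ m, P m → Q m) :
    (@filter _ P i₁ S).card ≤ (@filter _ Q i₂ S).card := by
  apply card_le_card
  intro m hm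
  rw [mem_filter] at hm ⊢
  exact ⟨hm.1, h m hm.2⟩

open Classical in
/-- Let `α_1, …, α_r` be real algebraic numbers such that every nontrivial integral combination of them is irrational
(that is, `1, α_1, …, α_r` are linearly independent over `ℚ`), and let `b j ≥ 2` be bases. Let `g ≥ 2` be another base,
which may be different from all the `b j`, and let `w`, `A` and `ε > 0` be given. For all large `k`, all real `y` and
all starting places `s j ≤ A k`, the tuple `(m α_j + y_j)` has all its tuples of words of at most `w` digits with the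
right frequencies, up to an error `ε k`, in all the windows of places `s j + u, …, s j + u + N - 1` with
`u + N ≤ A k`,
(1) for all the palindromes `m` with `k` digits in base `g` but a proportion of at most `ε`;
(2) for all the integers `m = ∑ a i g ^ i`, `i < k`, with `a i ∈ D i` for all `i` but a proportion of at most `ε`,
for all sets `D 0, …, D (k - 1)` of at least two digits. -/
theorem result (r : ℕ) (α : Fin r → ℝ) (halg : ∀ j, IsAlgebraic ℚ (α j))
    (hind : ∀ c : Fin r → ℤ, c ≠ 0 → Irrational (∑ j, (c j : ℝ) * α j)) (b : Fin r → ℕ) (hb : ∀ j, 2 ≤ b j)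
    (g : ℕ) (hg : 2 ≤ g) (w : ℕ) (A ε : ℝ) (hA : 0 < A) (hε : 0 < ε) :
    ∃ k₀ : ℕ, ∀ k : ℕ, k₀ ≤ k → ∀ (y : Fin r → ℝ) (s : Fin r → ℕ), (∀ j, (s j : ℝ) ≤ A * k) →
      (((palindromes g k).filter fun m : ℕ =>
        ¬ NearNormal b w (ε * k) (A * k) s (fun j => (m : ℝ) * α j + y j)).card : ℝ) ≤ ε * (palindromes g k).card ∧
      ∀ D : Fin k → Finset ℕ, (∀ i, D i ⊆ range g ∧ 2 ≤ (D i).card) →
        (((Fintype.piFinset D).filter fun a : Fin k → ℕ =>
          ¬ NearNormal b w (ε * k) (A * k) s (fun j => ((∑ i : Fin k, a i * g ^ (i : ℕ) : ℕ) : ℝ) * α j + y j)).card : ℝ) ≤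
          ε * (Fintype.piFinset D).card := by
  have hb1 : ∀ j, 1 ≤ b j := fun j => by have := hb j; omega
  obtain ⟨k₁, h1⟩ := Pool.Agent.R501.MT.almost_good α halg hind b hb1 g hg w A ε 1 hA hε one_pos
  obtain ⟨k₂, h2⟩ := Pool.Agent.R501.MT.restricted_good α halg hind b hb1 g hg w A ε hA hε
  refine ⟨k₁ + k₂, fun k hk y s hs => ⟨?_, fun D hD => ?_⟩⟩
  · have h3 := (h1 k (by omega) y s hs).2.1
    have e1 : ∀ E : ℕ → Prop, Pool.Agent.TH872.Tr.num g k E = ((palindromes g k).filter E).card := by
      intro E
      unfold Pool.Agent.TH872.Tr.num palindromes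
      rw [filter_filter]
      rfl
    rw [e1, e1, filter_true] at h3
    refine le_trans ?_ h3
    rw [Nat.cast_le]
    refine filt_card _ _ fun m hm hcon => hm (near_of_good ?_)
    have e2 : (fun j => ((0 + 1 * ((m : ℕ) : ℤ) : ℤ) : ℝ) * α j + y j) = fun j => (m : ℝ) * α j + y j := by
      funext j
      push_cast
      ring
    beta_reduce at hcon
    rw [e2] at hcon
    exact hcon
  · refine h2 k (by omega) D hD y s hs _ (filter_subset _ _) fun a ha hcon => ?_
    exact (mem_filter.1 ha).2 (near_of_good hcon)

end Pool.Agent.Results.MP_c8ecb2_nt.PalindromesAndMissingDigits
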