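import Pool.Agent.R501.MT4

/-!
# Joint digits of the multiples of an independent tuple of algebraic numbers by rearrangements of given digits

Let `α_1, …, α_r` be real algebraic numbers such that `1, α_1, …, α_r` are linearly independent over `ℚ`. Let `m` be a
random rearrangement of `k` given digits in base `g` (not almost all equal). These integers are a very thin set:
there are at most `g ^ k` of them up to `g ^ k`, and there may be fewer than `g ^ (ρ k)` of them for every `ρ > 0` given
in advance. Nevertheless for almost all of them the digit matrices of `(m α_1 + y_1, …, m α_r + y_r)` in arbitrary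
bases stand with the right frequencies in all the windows inside the first `A k` digits, for every `A`.

From the starting files: the Diophantine input `Pool.Agent.Y951.TU.Dioph` (which rests on the subspace theorem), the
comparison of measures on the cube `Pool.Agent.Y951.TU.Test` and the moments of word counts `Pool.Agent.Y933`; the
characteristic function of random rearrangements is in `Pool.Agent.TH872.An1` and `Pool.Agent.R459.Eq6`. New is the
combination: `Pool.Agent.R501.MT1` to `MT4`.
-/

set_option autoImplicit false

namespace Pool.Agent.Results.MP_c8ecb2_nt.RearrangedMultiples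

open Finset

/-- the word of the `l` digits in base `b` of `x` which follow the first `n` digits after the point, read as an integer
between `0` and `b ^ l - 1` -/
noncomputable def word (b l n : ℕ) (x : ℝ) : ℕ := ⌊(b : ℝ) ^ l * Int.fract ((b : ℝ) ^ n * x)⌋₊

/-- the number of the `i < N` such that for every `j` the word of `l` digits in base `b j` of `x j` which follows the
first `s j + u + i` digits is `D j` -/
noncomputable def occ {r : ℕ} (b : Fin r → ℕ) (l : ℕ) (D s : Fin r → ℕ) (u N : ℕ) (x : Fin r → ℝ) : ℕ :=
  ((range N).filter (fun i => ∀ j, word (b j) l (s j + u + i) (x j) = D j)).card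

/-- every tuple of words of at most `w` digits stands with the right frequency, up to an error of `T` places, in all the
windows of places `s j + u, …, s j + u + N - 1` with `u + N ≤ L` -/
def NearNormal {r : ℕ} (b : Fin r → ℕ) (w : ℕ) (T L : ℝ) (s : Fin r → ℕ) (x : Fin r → ℝ) : Prop :=
  ∀ (l : ℕ) (D : Fin r → ℕ) (u N : ℕ), 1 ≤ l → l ≤ w → (∀ j, D j < b j ^ l) → (u : ℝ) + N ≤ L →
    |(occ b l D s u N x : ℝ) - N / ∏ j, (b j : ℝ) ^ l| ≤ T

/-- the integer with the digits `d (σ 0), d (σ 1), …, d (σ (k - 1))` in base `g` (the units first) -/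
def rearranged (g : ℕ) {k : ℕ} (d : Fin k → ℕ) (σ : Equiv.Perm (Fin k)) : ℕ := ∑ i : Fin k, d (σ i) * g ^ (i : ℕ)

lemma near_of_good {r : ℕ} {b : Fin r → ℕ} {w : ℕ} {T L : ℝ} {s : Fin r → ℕ} {x : Fin r → ℝ}
    (h : Pool.Agent.R501.MT.GoodV b w T L s x) : NearNormal b w T L s x := by
  intro l D u N hl hlw hD huN
  have h1 := h l D u N hl hlw hD huN
  have h2 : (∏ j, (b j : ℝ) ^ l) = ((∏ j, b j : ℕ) : ℝ) ^ l := by
    rw [Finset.prod_pow]
    push_cast
    rfl
  have h3 : occ b l D s u N x =
      ((range N).filter (fun i => Pool.Agent.Y951.TU.tw b l (fun j => s j + (u + i)) x = D)).card := by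
    unfold occ
    congr 1
    apply filter_congr
    intro i _
    rw [funext_iff]
    simp only [add_assoc]
    rfl
  rw [h2, h3]
  exact h1

open Classical in
/-- Let `α_1, …, α_r` be real algebraic numbers such that every nontrivial integral combination of them is irrational
(that is, `1, α_1, …, α_r` are linearly independent over `ℚ`), and let `b j ≥ 2` be bases. Let `g ≥ 2` be another base,
which may be different from all the `b j`, and let `w`, `A`, `ε > 0` and `η > 0` be given. For all large `k`, for
all digits `d 0, …, d (k - 1) < g` none of which is taken at more than `(1 - η) k` places, for all real `y` and all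
starting places `s j ≤ A k`: for all the `k!` rearrangements `m` of the digits but at most `ε k!`, the tuple
`(m α_j + y_j)` has all its tuples of words of at most `w` digits with the right frequencies, up to an error `ε k`, in
all the windows of places `s j + u, …, s j + u + N - 1` with `u + N ≤ A k`. -/
theorem result (r : ℕ) (α : Fin r → ℝ) (halg : ∀ j, IsAlgebraic ℚ (α j))
    (hind : ∀ c : Fin r → ℤ, c ≠ 0 → Irrational (∑ j, (c j : ℝ) * α j)) (b : Fin r → ℕ) (hb : ∀ j, 2 ≤ b j)
    (g : ℕ) (hg : 2 ≤ g) (w : ℕ) (A ε η : ℝ) (hA : 0 < A) (hε : 0 < ε) (hη : 0 < η) :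
    ∃ k₀ : ℕ, ∀ k : ℕ, k₀ ≤ k → ∀ d : Fin k → ℕ, (∀ i, d i < g) →
      (∀ a, ((univ.filter fun i => d i = a).card : ℝ) ≤ (1 - η) * k) →
      ∀ (y : Fin r → ℝ) (s : Fin r → ℕ), (∀ j, (s j : ℝ) ≤ A * k) →
      ((univ.filter fun σ : Equiv.Perm (Fin k) =>
        ¬ NearNormal b w (ε * k) (A * k) s (fun j => (rearranged g d σ : ℝ) * α j + y j)).card : ℝ) ≤ ε * k.factorial := by
  obtain ⟨k₀, h⟩ := Pool.Agent.R501.MT.almost_good α halg hind b (fun j => by have := hb j; omega) g hg w A ε η hA hε hη
  refine ⟨k₀, fun k hk d hd hd' y s hs => ?_⟩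
  have h1 := (h k hk y s hs).1 d ⟨hd, fun a => by convert hd' a⟩
  rw [Pool.Agent.R459.Fams.count_eq] at h1
  refine le_trans ?_ h1
  rw [Nat.cast_le]
  apply card_le_card
  intro σ hσ
  rw [mem_filter] at hσ ⊢
  refine ⟨hσ.1, fun hcon => hσ.2 (near_of_good ?_)⟩
  have e1 : (fun j => ((0 + 1 * ((Pool.Agent.TH872.An.V g d σ : ℕ) : ℤ) : ℤ) : ℝ) * α j + y j) =
      fun j => (rearranged g d σ : ℝ) * α j + y j := by
    funext j
    unfold rearranged Pool.Agent.TH872.An.V
    push_cast
    ring
  beta_reduce at hcon
  rw [e1] at hcon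
  exact hcon

end Pool.Agent.Results.MP_c8ecb2_nt.RearrangedMultiples
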